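import Mathlib

/-!
# The Berge extremal function of `1₁ × C₄` is not quadratic

`Bh(m, 1₁ × C₄) ≥ m^(5/2) / 4000` for all `m`.  The matrix: rows `(p, s, t)` with `p ∈ {0, 1, 2}`,
`s ∈ 𝔽_q`, `t ∈ 𝔽_qˣ`, and one column with three ones, in the rows `(0, s₀, t₀)`, `(1, s₁, t₁)`,
`(2, s₂, t₂)`, for every solution of `s₀ + s₁ + s₂ = t₀ t₁ t₂`.
-/

set_option autoImplicit false
set_option linter.unusedSectionVars false

open Asymptotics Filter

namespace Pool.Agent.Results.MP_4da166_co.FiveHalves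

/-- a (0,1)-matrix is simple if it has no two equal columns -/
def Simple {ι κ : Type} (A : Matrix ι κ Bool) : Prop :=
  Function.Injective fun j : κ => fun i : ι => A i j

/-- `F ≪ A`: the matrix `A` has `F` as a Berge hypergraph, that is, some submatrix of `A` of the
size of `F` is entrywise at least a matrix obtained from `F` by permuting rows and columns. -/
def Berge {ι κ ι' κ' : Type} (F : Matrix ι κ Bool) (A : Matrix ι' κ' Bool) : Prop :=
  ∃ (r : ι ↪ ι') (c : κ ↪ κ'), ∀ i j, F i j = true → A (r i) (c j) = true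

/-- `Bh(m, F)`: the maximum number of columns of an `m`-rowed simple (0,1)-matrix `A` without
`F ≪ A` (the numbers of columns of these matrices are at most `2 ^ m`). -/
noncomputable def Bh (m : ℕ) {ι κ : Type} (F : Matrix ι κ Bool) : ℕ :=
  sSup {n : ℕ | ∃ A : Matrix (Fin m) (Fin n) Bool, Simple A ∧ ¬ Berge F A}

/-- the product `A × B`: the columns are all the ways of placing a column of `A` above a column
of `B` -/
def prod {ι κ ι' κ' : Type} (A : Matrix ι κ Bool) (B : Matrix ι' κ' Bool) :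
    Matrix (ι ⊕ ι') (κ × κ') Bool :=
  fun i j => Sum.elim (fun a => A a j.1) (fun b => B b j.2) i

/-- the `t × t` identity matrix `I_t` -/
def idm (t : ℕ) : Matrix (Fin t) (Fin t) Bool := fun i j => decide (i = j)

/-- the `1 × 1` matrix `1₁ = [1]` -/
def one : Matrix (Fin 1) (Fin 1) Bool := fun _ _ => true

/-- `F = 1₁ × C₄` with `C₄ = I₂ × I₂` -/
def F : Matrix (Fin 1 ⊕ (Fin 2 ⊕ Fin 2)) (Fin 1 × (Fin 2 × Fin 2)) Bool :=
  prod one (prod (idm 2) (idm 2))

section construction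

variable (K : Type) [Field K] [Fintype K] [DecidableEq K]

/-- rows -/
abbrev V := Fin 3 × (K × Kˣ)

/-- columns -/
abbrev E := {e : Fin 3 → K × Kˣ // ∑ p, (e p).1 = ∏ p, ((e p).2 : K)}

variable {K}

theorem key (x : K × Kˣ) (y z : Fin 2 → K × Kˣ)
    (h : ∀ i j, x.1 + (y i).1 + (z j).1 = (x.2 : K) * (y i).2 * (z j).2) :
    y 0 = y 1 ∨ z 0 = z 1 := by
  by_cases hz : (z 0).2 = (z 1).2
  · right
    have h1 := h 0 0
    have h2 := h 0 1
    rw [hz] at h1
    refine Prod.ext ?_ hz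
    linear_combination h1 - h2
  · left
    have hz' : ((z 0).2 : K) - ((z 1).2 : K) ≠ 0 := by
      intro h0
      exact hz (Units.ext (sub_eq_zero.1 h0))
    have h00 := h 0 0
    have h01 := h 0 1
    have h10 := h 1 0
    have h11 := h 1 1
    have h2 : (y 0).2 = (y 1).2 := by
      apply Units.ext
      have hx : (x.2 : K) ≠ 0 := x.2.ne_zero
      have h3 : (x.2 : K) * (((z 0).2 : K) - ((z 1).2 : K)) * (((y 0).2 : K) - ((y 1).2 : K)) = 0 := by
        linear_combination -h00 + h01 + h10 - h11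
      rcases mul_eq_zero.1 h3 with h4 | h4
      · exact absurd h4 (mul_ne_zero hx hz')
      · exact sub_eq_zero.1 h4
    refine Prod.ext ?_ h2
    rw [h2] at h00
    linear_combination h00 - h10

/-- sums and products over the three parts, the parts listed in any order -/
theorem three {M : Type} [CommMonoid M] (f : Fin 3 → M) (p r s : Fin 3) (h1 : p ≠ r) (h2 : p ≠ s)
    (h3 : r ≠ s) : ∏ i, f i = f p * f r * f s := by
  have : (Finset.univ : Finset (Fin 3)) = {p, r, s} := by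
    revert p r s; decide
  rw [this, Finset.prod_insert (by simp [h1, h2]), Finset.prod_insert (by simp [h3]),
    Finset.prod_singleton, mul_assoc]

theorem three' {M : Type} [AddCommMonoid M] (f : Fin 3 → M) (p r s : Fin 3) (h1 : p ≠ r)
    (h2 : p ≠ s) (h3 : r ≠ s) : ∑ i, f i = f p + f r + f s := by
  have : (Finset.univ : Finset (Fin 3)) = {p, r, s} := by
    revert p r s; decide
  rw [this, Finset.sum_insert (by simp [h1, h2]), Finset.sum_insert (by simp [h3]),
    Finset.sum_singleton, add_assoc]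

theorem third : ∀ p r r' s s' : Fin 3, p ≠ r → p ≠ r' → p ≠ s → p ≠ s' → r ≠ s → r ≠ s' → r' ≠ s →
    r' ≠ s' → r = r' ∧ s = s' := by
  decide

/-- no vertex has a 4-cycle in its link -/
theorem free (a : V K) (b c : Fin 2 → V K) (hab : ∀ i, a ≠ b i) (hac : ∀ j, a ≠ c j)
    (hbc : ∀ i j, b i ≠ c j) (hb : b 0 ≠ b 1) (hc : c 0 ≠ c 1) (e : Fin 2 → Fin 2 → E K)
    (h1 : ∀ i j, (e i j).1 a.1 = a.2) (h2 : ∀ i j, (e i j).1 (b i).1 = (b i).2)
    (h3 : ∀ i j, (e i j).1 (c j).1 = (c j).2) : False := by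
  have pab : ∀ i, a.1 ≠ (b i).1 := by
    intro i h
    apply hab i
    refine Prod.ext h ?_
    rw [← h1 i 0, ← h2 i 0, h]
  have pac : ∀ j, a.1 ≠ (c j).1 := by
    intro j h
    apply hac j
    refine Prod.ext h ?_
    rw [← h1 0 j, ← h3 0 j, h]
  have pbc : ∀ i j, (b i).1 ≠ (c j).1 := by
    intro i j h
    apply hbc i j
    refine Prod.ext h ?_
    rw [← h2 i j, ← h3 i j, h]
  obtain ⟨hbb, hcc⟩ := third a.1 (b 0).1 (b 1).1 (c 0).1 (c 1).1 (pab 0) (pab 1) (pac 0) (pac 1)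
    (pbc 0 0) (pbc 0 1) (pbc 1 0) (pbc 1 1)
  have hk := key a.2 (fun i => (b i).2) (fun j => (c j).2) (by
    intro i j
    have h := (e i j).2
    rw [three' _ a.1 (b i).1 (c j).1 (pab i) (pac j) (pbc i j),
      three _ a.1 (b i).1 (c j).1 (pab i) (pac j) (pbc i j), h1, h2, h3] at h
    exact h)
  rcases hk with h | h
  · exact hb (Prod.ext hbb h)
  · exact hc (Prod.ext hcc h)

/-- many columns -/
theorem card_E : (Fintype.card K) ^ 2 * (Fintype.card K - 1) ^ 3 ≤ Fintype.card (E K) := by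
  have h1 : Fintype.card ((K × Kˣ) × (K × Kˣ) × Kˣ) =
      (Fintype.card K) ^ 2 * (Fintype.card K - 1) ^ 3 := by
    simp only [Fintype.card_prod, Fintype.card_units]
    ring
  rw [← h1]
  refine Fintype.card_le_of_injective (fun u : (K × Kˣ) × (K × Kˣ) × Kˣ =>
    (⟨![u.1, u.2.1, ((u.1.2 : K) * u.2.1.2 * u.2.2 - u.1.1 - u.2.1.1, u.2.2)], ?_⟩ : E K)) ?_
  · simp only [Fin.sum_univ_three, Fin.prod_univ_three, Matrix.cons_val_zero, Matrix.cons_val_one,
      Matrix.cons_val_two, Matrix.head_cons, Matrix.tail_cons, Matrix.cons_val]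
    ring
  · intro u v h
    have h' := congrArg Subtype.val h
    have e0 := congrFun h' 0
    have e1 := congrFun h' 1
    have e2 := congrFun h' 2
    simp only [Matrix.cons_val_zero, Matrix.cons_val_one, Matrix.cons_val] at e0 e1 e2
    have e3 := congrArg Prod.snd e2
    exact Prod.ext e0 (Prod.ext e1 e3)

theorem bdd (m : ℕ) {ι κ : Type} (F : Matrix ι κ Bool) :
    BddAbove {n : ℕ | ∃ A : Matrix (Fin m) (Fin n) Bool, Simple A ∧ ¬ Berge F A} := by
  refine ⟨2 ^ m, ?_⟩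
  rintro n ⟨A, hA, -⟩
  have := Fintype.card_le_of_injective _ hA
  simpa using this

theorem le_Bh (m : ℕ) {ι κ κ' : Type} [Fintype κ'] (F : Matrix ι κ Bool)
    (A : Matrix (Fin m) κ' Bool) (hA : Simple A) (h : ¬ Berge F A) : Fintype.card κ' ≤ Bh m F := by
  refine le_csSup (bdd m F) ⟨fun i j => A i ((Fintype.equivFin κ').symm j), ?_, ?_⟩
  · intro j j' hj
    exact (Fintype.equivFin κ').symm.injective (hA hj)
  · rintro ⟨r, c, hrc⟩
    exact h ⟨r, c.trans (Fintype.equivFin κ').symm.toEmbedding, hrc⟩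

theorem lower (m : ℕ) (hm : 3 * Fintype.card K ^ 2 ≤ m) :
    (Fintype.card K) ^ 2 * (Fintype.card K - 1) ^ 3 ≤ Bh m F := by
  have hV : Fintype.card (V K) ≤ Fintype.card (Fin m) := by
    simp only [V, Fintype.card_prod, Fintype.card_fin, Fintype.card_units]
    calc 3 * (Fintype.card K * (Fintype.card K - 1))
        ≤ 3 * (Fintype.card K * Fintype.card K) := by
          gcongr
          omega
      _ ≤ m := by rw [← sq]; exact hm
  obtain ⟨ι⟩ := Function.Embedding.nonempty_of_card_le hV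
  classical
  let A : Matrix (Fin m) (E K) Bool := fun i e => decide (∃ v : V K, ι v = i ∧ e.1 v.1 = v.2)
  have hA : ∀ (v : V K) (e : E K), A (ι v) e = true ↔ e.1 v.1 = v.2 := by
    intro v e
    simp only [A, decide_eq_true_eq]
    constructor
    · rintro ⟨w, hw, h⟩
      rw [← ι.injective hw]; exact h
    · intro h; exact ⟨v, rfl, h⟩
  have hA' : ∀ (i : Fin m) (e : E K), A i e = true → ∃ v : V K, ι v = i ∧ e.1 v.1 = v.2 := by
    intro i e h
    simpa [A] using h
  refine card_E.trans (le_Bh m F A ?_ ?_)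
  · intro e e' h
    apply Subtype.ext
    funext p
    have h1 : A (ι (p, e'.1 p)) e' = true := (hA (p, e'.1 p) e').2 rfl
    have h2 : A (ι (p, e'.1 p)) e = true := by
      have := congrFun h (ι (p, e'.1 p))
      simp only at this
      rw [this]; exact h1
    exact (hA (p, e'.1 p) e).1 h2
  · rintro ⟨r, c, hrc⟩
    -- the rows and columns of the copy
    have hF1 : ∀ i j : Fin 2, F (Sum.inl 0) (0, (i, j)) = true := by decide
    have hF2 : ∀ i j : Fin 2, F (Sum.inr (Sum.inl i)) (0, (i, j)) = true := by decide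
    have hF3 : ∀ i j : Fin 2, F (Sum.inr (Sum.inr j)) (0, (i, j)) = true := by decide
    obtain ⟨a, ha, -⟩ := hA' _ _ (hrc _ _ (hF1 0 0))
    have hb : ∀ i : Fin 2, ∃ b : V K, ι b = r (Sum.inr (Sum.inl i)) := by
      intro i
      obtain ⟨b, hb, -⟩ := hA' _ _ (hrc _ _ (hF2 i 0))
      exact ⟨b, hb⟩
    have hc : ∀ j : Fin 2, ∃ b : V K, ι b = r (Sum.inr (Sum.inr j)) := by
      intro j
      obtain ⟨b, hb, -⟩ := hA' _ _ (hrc _ _ (hF3 0 j))
      exact ⟨b, hb⟩
    choose b hb using hb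
    choose d hd using hc
    have hne : ∀ (i i' : Fin 1 ⊕ (Fin 2 ⊕ Fin 2)) (v w : V K), ι v = r i → ι w = r i' → i ≠ i' →
        v ≠ w := by
      intro i i' v w hv hw hii h
      rw [h, hw] at hv
      exact hii (r.injective hv.symm)
    refine free a b d (fun i => hne _ _ _ _ ha (hb i) (by simp))
      (fun j => hne _ _ _ _ ha (hd j) (by simp)) (fun i j => hne _ _ _ _ (hb i) (hd j) (by simp))
      (hne _ _ _ _ (hb 0) (hb 1) (by simp)) (hne _ _ _ _ (hd 0) (hd 1) (by simp))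
      (fun i j => c (0, (i, j))) ?_ ?_ ?_
    · intro i j
      exact (hA a _).1 (by rw [ha]; exact hrc _ _ (hF1 i j))
    · intro i j
      exact (hA (b i) _).1 (by rw [hb i]; exact hrc _ _ (hF2 i j))
    · intro i j
      exact (hA (d j) _).1 (by rw [hd j]; exact hrc _ _ (hF3 i j))

end construction

theorem one_le_Bh (m : ℕ) : 1 ≤ Bh m F := by
  have h := le_Bh m F (fun (_ : Fin m) (_ : Fin 1) => true) (fun i j _ => Subsingleton.elim i j) (by
    rintro ⟨r, c, -⟩
    have h1 : (c (0, (0, 0)) : Fin 1) = c (0, (0, 1)) := Subsingleton.elim _ _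
    have h2 := c.injective h1
    simp at h2)
  simpa using h

theorem bound (m : ℕ) : (m : ℝ) ^ (5 / 2 : ℝ) / 4000 ≤ Bh m F := by
  by_cases hm : m < 12
  · have h1 : (1 : ℝ) ≤ Bh m F := by exact_mod_cast one_le_Bh m
    have h2 : (m : ℝ) ^ (5 / 2 : ℝ) ≤ 4000 := by
      have h3 : (m : ℝ) ≤ 16 := by
        have : m ≤ 16 := by omega
        exact_mod_cast this
      calc (m : ℝ) ^ (5 / 2 : ℝ) ≤ (16 : ℝ) ^ (5 / 2 : ℝ) :=
            Real.rpow_le_rpow (Nat.cast_nonneg m) h3 (by norm_num)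
        _ = 1024 := by
            rw [show (16 : ℝ) = 4 ^ (2 : ℝ) by norm_num, ← Real.rpow_mul (by norm_num)]
            norm_num
        _ ≤ 4000 := by norm_num
    linarith
  · push_neg at hm
    set n := Nat.sqrt (m / 12) with hn
    have hn1 : 1 ≤ n := by
      rw [hn, Nat.le_sqrt]
      omega
    obtain ⟨q, hq, hq1, hq2⟩ := Nat.exists_prime_lt_and_le_two_mul n (by omega)
    have : Fact q.Prime := ⟨hq⟩
    have hnn : n * n ≤ m / 12 := Nat.sqrt_le _
    have hnn' : m / 12 < (n + 1) * (n + 1) := Nat.lt_succ_sqrt _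
    have hqm : 3 * Fintype.card (ZMod q) ^ 2 ≤ m := by
      rw [ZMod.card]
      have : q * q ≤ (2 * n) * (2 * n) := Nat.mul_le_mul hq2 hq2
      have h12 : 12 * (m / 12) ≤ m := Nat.mul_div_le m 12
      nlinarith
    have h := lower (K := ZMod q) m hqm
    rw [ZMod.card] at h
    have hq3 : (m : ℝ) / 12 ≤ (q : ℝ) ^ 2 := by
      have h1 : m < 12 * ((n + 1) * (n + 1)) := by
        have := Nat.lt_mul_div_succ m (show 0 < 12 by norm_num)
        have h3 : m / 12 + 1 ≤ (n + 1) * (n + 1) := hnn'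
        calc m < 12 * (m / 12 + 1) := this
          _ ≤ 12 * ((n + 1) * (n + 1)) := by gcongr
      have h2 : (n + 1) * (n + 1) ≤ q * q := Nat.mul_le_mul hq1 hq1
      have h3 : m ≤ 12 * (q * q) := by omega
      have h4 : (m : ℝ) ≤ 12 * ((q : ℝ) * q) := by exact_mod_cast h3
      rw [div_le_iff₀ (by norm_num), sq]
      linarith
    have hq2' : (2 : ℝ) ≤ q := by exact_mod_cast hq.two_le
    have hsub : ((q - 1 : ℕ) : ℝ) = (q : ℝ) - 1 := by
      rw [Nat.cast_sub (by have := hq.two_le; omega)]; simp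
    have h' : (q : ℝ) ^ 2 * ((q : ℝ) - 1) ^ 3 ≤ Bh m F := by
      rw [← hsub]; exact_mod_cast h
    have h5 : (q : ℝ) ^ 5 / 8 ≤ (q : ℝ) ^ 2 * ((q : ℝ) - 1) ^ 3 := by
      have h6 : (q : ℝ) / 2 ≤ q - 1 := by linarith
      have h7 : ((q : ℝ) / 2) ^ 3 ≤ ((q : ℝ) - 1) ^ 3 := by gcongr
      nlinarith [mul_le_mul_of_nonneg_left h7 (sq_nonneg (q : ℝ))]
    have hm0 : (0 : ℝ) ≤ m := Nat.cast_nonneg m
    -- square both sides
    have h8 : (m : ℝ) ^ (5 / 2 : ℝ) / 4000 ≤ (q : ℝ) ^ 5 / 8 := by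
      have h9 : (m : ℝ) ^ (5 / 2 : ℝ) = Real.sqrt ((m : ℝ) ^ 5) := by
        rw [Real.sqrt_eq_rpow, ← Real.rpow_natCast, ← Real.rpow_mul hm0]
        norm_num
      have h10 : Real.sqrt ((m : ℝ) ^ 5) ≤ 500 * (q : ℝ) ^ 5 := by
        rw [Real.sqrt_le_left (by positivity)]
        have h11 : (m : ℝ) ^ 5 ≤ (12 * (q : ℝ) ^ 2) ^ 5 := by
          gcongr
          linarith
        calc (m : ℝ) ^ 5 ≤ (12 * (q : ℝ) ^ 2) ^ 5 := h11
          _ = 248832 * ((q : ℝ) ^ 5) ^ 2 := by ring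
          _ ≤ 250000 * ((q : ℝ) ^ 5) ^ 2 := by gcongr; norm_num
          _ = (500 * (q : ℝ) ^ 5) ^ 2 := by ring
      rw [h9]
      linarith
    linarith

/-- For every `m` one has `Bh(m, 1₁ × C₄) ≥ m^(5/2) / 4000`; in particular
`Bh(m, 1₁ × C₄)` is not `Θ(m²)`. -/
theorem result :
    (∀ m : ℕ, (m : ℝ) ^ (5 / 2 : ℝ) / 4000 ≤ Bh m F) ∧
      ¬ ((fun m : ℕ => (Bh m F : ℝ)) =Θ[atTop] fun m : ℕ => (m : ℝ) ^ 2) := by
  refine ⟨bound, fun h => ?_⟩
  obtain ⟨C, hC⟩ := h.1.bound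
  obtain ⟨N, hN⟩ := eventually_atTop.1 hC
  -- take `m = k ^ 2` with `k > 4000 C` and `k` large
  obtain ⟨k, hk⟩ := exists_nat_gt (max (4000 * C) (max N 1 : ℕ))
  have hk1 : 4000 * C < k := lt_of_le_of_lt (le_max_left _ _) hk
  have hk2 : ((max N 1 : ℕ) : ℝ) < k := lt_of_le_of_lt (le_max_right _ _) hk
  have hk3 : max N 1 < k := by exact_mod_cast hk2
  have hkN : N ≤ k ^ 2 := by
    have h1 : N ≤ k := le_trans (le_max_left _ _) hk3.le
    nlinarith [Nat.one_le_iff_ne_zero.2 (show k ≠ 0 by omega)]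
  have hk0 : (0 : ℝ) < k := lt_of_le_of_lt (Nat.cast_nonneg _) hk2
  have h1 := hN (k ^ 2) hkN
  have h2 := bound (k ^ 2)
  have h3 : ((k ^ 2 : ℕ) : ℝ) ^ (5 / 2 : ℝ) = (k : ℝ) ^ 5 := by
    push_cast
    rw [← Real.rpow_natCast, ← Real.rpow_natCast, ← Real.rpow_mul hk0.le]
    norm_num
  rw [h3] at h2
  rw [Real.norm_of_nonneg (Nat.cast_nonneg _), Real.norm_of_nonneg (by positivity)] at h1
  push_cast at h1
  have h4 : (k : ℝ) ^ 5 / 4000 ≤ C * ((k : ℝ) ^ 2) ^ 2 := h2.trans h1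
  have h5 : (k : ℝ) ^ 5 ≤ (4000 * C) * (k : ℝ) ^ 4 := by nlinarith
  have h6 : (4000 * C) * (k : ℝ) ^ 4 < k * (k : ℝ) ^ 4 := by
    have : (0 : ℝ) < (k : ℝ) ^ 4 := by positivity
    exact mul_lt_mul_of_pos_right hk1 this
  nlinarith

end Pool.Agent.Results.MP_4da166_co.FiveHalves
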